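import Pool.Agent.helper70.FI4.SpecK

/-!
# Project fi4, row KSU: sums over the regular elements of a quotient
-/

set_option autoImplicit false

namespace Pool.Agent.FI4

open Pool.Agent.helper58.DC Pool.Agent.DI Pool.Agent.GR Pool.Agent.OB Pool.Agent.DR Pool.Agent.FI Pool.Agent.FI3

theorem KSU (hKPR : KPR_stmt) : KSU_stmt := by
  intro p _ G Gb _ _ _ _ R π hQ Hb F
  classical
  obtain ⟨h1, h2, -⟩ := hKPR p G Gb R π hQ
  have hfinA : Set.Finite {y : Gb | y ∈ Hb ∧ PReg p y} := Set.toFinite _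
  have hfinB : Set.Finite {v : G | v ∈ Hb.comap π ∧ PReg p v} := Set.toFinite _
  rw [finsum_mem_eq_finite_toFinset_sum _ hfinA, finsum_mem_eq_finite_toFinset_sum _ hfinB]
  have hmap : ∀ v ∈ hfinB.toFinset, π v ∈ hfinA.toFinset := by
    intro v hv
    rw [Set.Finite.mem_toFinset] at hv ⊢
    exact ⟨hv.1, h2 v hv.2⟩
  rw [← Finset.sum_fiberwise_of_maps_to hmap]
  refine Finset.sum_congr rfl fun y hy => ?_
  rw [Set.Finite.mem_toFinset] at hy
  have hmem : ∀ v : G, v ∈ hfinB.toFinset.filter (fun v => π v = y) ↔ PReg p v ∧ π v = y := by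
    intro v
    rw [Finset.mem_filter, Set.Finite.mem_toFinset]
    constructor
    · rintro ⟨⟨_, h⟩, h'⟩
      exact ⟨h, h'⟩
    · rintro ⟨h, h'⟩
      refine ⟨⟨?_, h⟩, h'⟩
      rw [Subgroup.mem_comap, h']
      exact hy.1
  have hc : ∀ v ∈ hfinB.toFinset.filter (fun v => π v = y),
      {r : G | r ∈ R ∧ PReg p (v * r)}.ncard = (hfinB.toFinset.filter (fun v => π v = y)).card := by
    intro v hv
    rw [hmem] at hv
    rw [← Set.ncard_coe_finset]
    refine Set.ncard_congr (fun r _ => v * r) ?_ ?_ ?_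
    · intro r hr
      rw [Finset.mem_coe, hmem]
      refine ⟨hr.2, ?_⟩
      rw [map_mul, (hQ.ker r).2 hr.1, mul_one]
      exact hv.2
    · intro a b _ _ hab
      exact mul_left_cancel hab
    · intro w hw
      rw [Finset.mem_coe, hmem] at hw
      refine ⟨v⁻¹ * w, ⟨?_, ?_⟩, ?_⟩
      · rw [← hQ.ker, map_mul, map_inv, hv.2, hw.2, inv_mul_cancel]
      · rw [mul_inv_cancel_left]
        exact hw.1
      · rw [mul_inv_cancel_left]
  have hsum : ∑ v ∈ hfinB.toFinset.filter (fun v => π v = y),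
      F (π v) / ({r : G | r ∈ R ∧ PReg p (v * r)}.ncard : ℂ) =
      ∑ v ∈ hfinB.toFinset.filter (fun v => π v = y),
        F y / ((hfinB.toFinset.filter (fun v => π v = y)).card : ℂ) := by
    refine Finset.sum_congr rfl fun v hv => ?_
    rw [hc v hv, ((hmem v).1 hv).2]
  rw [hsum, Finset.sum_const, nsmul_eq_mul]
  obtain ⟨g, hg, hgy⟩ := h1 y hy.2
  have hpos : ((hfinB.toFinset.filter (fun v => π v = y)).card : ℂ) ≠ 0 := by
    rw [Nat.cast_ne_zero]
    exact Finset.card_ne_zero_of_mem ((hmem g).2 ⟨hg, hgy⟩)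
  exact (mul_div_cancel₀ (F y) hpos).symm

end Pool.Agent.FI4
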